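import Pool.Agent.J4H63.DB.Classes

/-!
# Counting independent sets in regular and nearly regular dense bipartite graphs

Definitions (all in `Pool/Agent/J4H63/DB/Defs.lean` and `Pool/Agent/J4H63/DB/Final.lean`, apart from
`PolyTime`, `bits` in `Pool/Agent/NPC/Defs.lean` and `Approx` in `Pool/Agent/H49R2/PC/Defs.lean`):

* `BGr`, `IsBip`: bipartite graphs `(L, R, E)` with given parts; `nV G` is the number `n` of all
  vertices, `numIS G` the number `i(G)` of independent sets, `degL`, `degR` the degrees,
  `eBetween` the number of edges between two sets;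
* `Spread δ s G`: `e(A, B) ≥ δ (|A| + |B| - |R| - s)` for all `A ⊆ L`, `B ⊆ R`; for instance
  `d`-regular graphs are `Spread d 0` (second clause);
* `Robust k C G`: `e(A, B) ≥ (n / k) (|A| + |B| - |R| - C log₂ n)` for all `A ⊆ L`, `B ⊆ R`;
* `NearRegular k C G`: the degrees in `L` are at least `n / k` and at least `D - C log₂ n`, where the
  degrees in `R` are at most `D`;
* `NearHalf C G`: `|L| = |R|` and all degrees are at least `(|L| - C log₂ n) / 2`;
* `HasFPTASOn`: deterministic approximation within `1 ± 1 / N` in time polynomial in the length of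
  the input and `N`.

Idea.  Branch on all vertices which have at least `δ / 8` neighbours in what is left of the other
part: there are at most `n ^ (16 n / δ + 16)` leaves.  A leaf is an induced subgraph `H` with maximum
degree less than `δ / 8`.  If `H` has a large matching then, as it has at least
`δ (|V(H)| - |R| - s)` edges, the gain `(3/4)` per edge of the matching outweighs the excess of
`|V(H)|` over `|R|`, and the leaf is negligible against `2 ^ |R|`.  If not, `H` has a small vertex
cover, and the independent sets of `H` are counted exactly.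
-/

set_option autoImplicit false

namespace Pool.Agent.Results.MP_a7c826_lc.DenseRegular

open Pool.Agent.NPC Pool.Agent.H49R2.PC Pool.Agent.J4H63.DB

theorem result :
    (∃ (F : BGr × ℕ × List Bool → ℕ) (A : List Bool → List Bool), PolyTime A ∧
      (∀ x, A (bits x) = bits (F x)) ∧
      ∀ (G : BGr) (δ s N : ℕ) (w : List Bool), IsBip G → 1 ≤ δ → 1 ≤ N → Spread δ s G →
        ((nV G + 2) ^ (nV G / δ + 1) * 2 ^ s * N) ^ 136 ≤ w.length →
        Approx N (F (G, δ, w)) (numIS G)) ∧
    (∀ (d : ℕ) (G : BGr), IsBip G → (∀ u ∈ G.1, degL G u = d) → (∀ v ∈ G.2.1, degR G v = d) →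
      Spread d 0 G) ∧
    (∀ k C : ℕ, 1 ≤ k → HasFPTASOn (fun G : BGr => IsBip G ∧ Robust k C G) numIS) ∧
    (∀ k C : ℕ, 1 ≤ k → HasFPTASOn (fun G : BGr => IsBip G ∧ NearRegular k C G) numIS) ∧
    (∀ C : ℕ, HasFPTASOn (fun G : BGr => IsBip G ∧ NearHalf C G) numIS) := by
  refine ⟨?_, ?_, ?_, ?_, ?_⟩
  · obtain ⟨A, hA, hA'⟩ := exists_polyTime p_alg 0
    exact ⟨alg, A, hA, hA', fun G δ s N w hG hδ hN hs hW => alg_correct G δ s N _ hG hδ hN hs hW⟩
  · exact fun d G hG h1 h2 => spread_of_regular hG h1 h2
  · exact fun k C hk => fptas_robust k C hk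
  · exact fun k C hk => (fptas_robust k (k * C) hk).mono fun G hG => ⟨hG.1, hG.2.robust hG.1⟩
  · exact fun C => (fptas_robust 8 (2 * C) (by norm_num)).mono fun G hG =>
      ⟨hG.1, hG.2.robust hG.1⟩

end Pool.Agent.Results.MP_a7c826_lc.DenseRegular
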