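import Pool.Agent.J4H23.SB.NhMain
import Pool.Agent.J4H23.NH.Rat
import Pool.Agent.J4H23.NH.Ctg
import Pool.Agent.J4H23.NH.Tch
import Pool.Agent.J4H23.NH.Ply
import Pool.Agent.J4H42.NH.Idn

/-!
# Counting independent sets in bipartite graphs: noise of polynomially small mean degree does not help

Definitions (`noisy`, `nz`, `SmoothedFPRAS` in `Pool/Agent/J4H23/SB/Nh.lean`; `BGr`, `IsBip`, `numIS` in
`Pool/Agent/J4H63/DB/Defs.lean`; `PolyTime`, `bits` in `Pool/Agent/NPC/Defs.lean`; `Approx`, `HasFPRASOn` in
`Pool/Agent/H49R2/PC/Defs.lean`):

* `noisy m H J r`: the bipartite graph with two parts of `m` vertices whose edges are the pairs in the list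
  `H` (the host graph) and the pairs `(u, v)` for which the block of `J` random bits of the string `r`
  belonging to `(u, v)` has only ones: so every pair is an edge of the noise with probability
  `2 ^ (- J)`, independently;
* `SmoothedFPRAS k`: there is a randomised polynomial-time algorithm such that for all `m = 2 ^ (k s)`, with
  noise of probability `2 ^ (- (k + 1) s) = m ^ (- 1 - 1 / k)` (mean degree `m ^ (- 1 / k)`), for ALL
  host graphs `H` and all `N ≥ 2`, its output for the noisy graph is within the relative error
  `1 / N` of the number of independent sets, with probability at least `9 / 10` over the noise and the random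
  bits of the algorithm;
* `HasFPRASOn IsBip numIS`: there is an FPRAS for the number of independent sets on all finite bipartite
  graphs.

The theorem: `SmoothedFPRAS k` for a single `k ≥ 1` gives an FPRAS for all bipartite graphs.  In contrast, for noise of
mean degree `C log m` there is even a deterministic approximation scheme
(`Pool/Agent/Results/MP_a7c826_lc/SmoothedAnalysis.lean`).

Proof.  Put a given graph `G` with `n` vertices into the corner of a host graph with `m ≥ (100 n) ^ k`.  The noise
meets the rows or columns of `G` with probability at most `n m ^ (- 1 / k) ≤ 1 / 100`, and if it does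
not, then `i(G) = i(H ∪ X) * 2 ^ n / i(X)`; the algorithm is applied to both graphs on the right.
-/

set_option autoImplicit false

namespace Pool.Agent.Results.MP_a7c826_lc.NoiseDoesNotHelp

open Pool.Agent.NPC Pool.Agent.H49R2.PC Pool.Agent.J4H63.DB Pool.Agent.J4H23.SB

theorem result : ∀ k : ℕ, 1 ≤ k → SmoothedFPRAS k → HasFPRASOn IsBip numIS :=
  fun k hk h => nh_main Pool.Agent.J4H42.NH.t_IDN Pool.Agent.J4H23.NH.t_TCH
    Pool.Agent.J4H23.NH.t_PLY Pool.Agent.J4H23.NH.t_RAT Pool.Agent.J4H23.NH.t_CTG k hk h

end Pool.Agent.Results.MP_a7c826_lc.NoiseDoesNotHelp
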