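import Pool.Agent.J4H95.RB.Pad

/-!
# Q1 is equivalent to its restriction to regular bipartite graphs of degree `n ^ (1 - ε)`, and linear degree is the threshold

Definitions (in `Pool/Agent/J4H63/DB/Defs.lean`, `Pool/Agent/J4H95/RB/Pad.lean` and, for
`HasFPRASOn`, `Approx`, `Pool/Agent/H49R2/PC/Defs.lean`):

* `BGr`, `IsBip`: bipartite graphs `(L, R, E)` with given parts; `numIS G` is the number `i(G)` of
  independent sets, `degL`, `degR` are the degrees, `nV G` is the number of vertices;
* `RegAbove g G`: `|L| = |R| = n`, all the vertices have the same degree `d`, and `n ≤ g n * d`, that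
  is, `d ≥ n / g n`;
* `HasFPRASOn`: randomised approximation within `1 ± 1 / N`, with probability at least `3 / 4`, in
  time polynomial in the length of the input and `N`; `HasFPTASOn`: the deterministic analogue.

Let `g` be monotone.  If `g n ≥ n ^ (1 / (k + 1))` for some `k`, then an FPRAS for `i` on all
bipartite graphs exists if and only if one exists on the (exactly) regular bipartite graphs of
degree at least `n / g n`, and the same for FPTAS.  (For regular graphs of linear degree there is an
FPTAS, see `DenseRegular.lean` in this folder.)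

For every monotone `g`, an FPRAS on the regular bipartite graphs with `d ≥ n / g n` gives an FPRAS on
the pairs of a bipartite graph with `n` vertices and an arbitrary string (pad) `w` with
`2 n + 1 ≤ g |w|`.  For `g n = (log₂ n) ^ k` this is an approximation of `i(G)` for all bipartite
graphs in time `exp (O (n ^ (1 / k)))`, polynomial in the inverse of the precision.  The same for
FPTAS.

Idea.  The clusters are a centre `Γ`, the left vertices `u`, the right vertices `v` and one pendant
`w_u` for each left vertex; each cluster `c` is a complete bipartite graph between `M` left vertices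
`(c, s)` and `M` right vertices `(c, s)`.  For each arc, `u → v` for an edge `u v` and `u → w_u`, and
each `s` in a block of `m` indices of the arc, the three edges `(u, s) (u, *)`, `(v, s) (v, s)` and
`(Γ, s) (Γ, s)` are switched to `(u, s) (v, s)`, `(v, s) (Γ, s)` and `(Γ, s) (u, *)`, where `*` is one
fixed index.  The graph is `M`-regular.  In almost all independent sets every cluster uses only one
of its sides, the sides which give a non-negligible number are exactly: `Γ` left, the arcs closed
(an independent set of `G`; the factor `1 / 2` for each centre `(u, *)` which is cancelled by the two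
choices for the pendant), or all ends of the arcs right.
-/

set_option autoImplicit false

namespace Pool.Agent.Results.MP_a7c826_lc.RegularEquivalence

open Pool.Agent.NPC Pool.Agent.H49R2.PC Pool.Agent.J4H63.DB Pool.Agent.J4H95.RB

theorem result (g : ℕ → ℕ) (hg : Monotone g) :
    ((∃ k : ℕ, ∀ n : ℕ, n ≤ g n ^ (k + 1)) →
      (HasFPRASOn IsBip numIS ↔ HasFPRASOn (fun G : BGr => IsBip G ∧ RegAbove g G) numIS) ∧
      (HasFPTASOn IsBip numIS ↔ HasFPTASOn (fun G : BGr => IsBip G ∧ RegAbove g G) numIS)) ∧
    (HasFPRASOn (fun G : BGr => IsBip G ∧ RegAbove g G) numIS →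
      HasFPRASOn (fun y : BGr × List Bool => IsBip y.1 ∧ 2 * nV y.1 + 1 ≤ g y.2.length)
        (fun y => numIS y.1)) ∧
    (HasFPTASOn (fun G : BGr => IsBip G ∧ RegAbove g G) numIS →
      HasFPTASOn (fun y : BGr × List Bool => IsBip y.1 ∧ 2 * nV y.1 + 1 ≤ g y.2.length)
        (fun y => numIS y.1)) := by
  refine ⟨?_, transferPR hg, transferPT hg⟩
  rintro ⟨k, hk⟩
  have hcl : ∀ G : BGr, IsBip G ∧ RegDense k G → IsBip G ∧ RegAbove g G := by
    rintro G ⟨hG, h1, d, h2, h3, h4⟩
    refine ⟨hG, h1, d, h2, h3, ?_⟩
    have h5 : G.1.length ^ (k + 1) ≤ (g G.1.length * d) ^ (k + 1) := by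
      rw [mul_pow, pow_succ, mul_comm]
      exact Nat.mul_le_mul (hk _) h4
    exact (Nat.pow_le_pow_iff_left (by omega)).1 h5
  exact ⟨⟨HasFPRASOn.mono fun _ h => h.1, fun h => transferR k (HasFPRASOn.mono hcl h)⟩,
    ⟨HasFPTASOn.mono fun _ h => h.1, fun h => transferT k (HasFPTASOn.mono hcl h)⟩⟩

end Pool.Agent.Results.MP_a7c826_lc.RegularEquivalence
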