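import Pool.Agent.J4H23.SB.Final

/-!
# Counting independent sets in bipartite graphs with noise: an FPTAS

Definitions (in `Pool/Agent/J4H23/SB/Stm.lean` and `Pool/Agent/J4H23/SB/Main.lean`, apart from `BGr`, `numIS` in
`Pool/Agent/J4H63/DB/Defs.lean`, `PolyTime`, `bits` in `Pool/Agent/NPC/Defs.lean` and `Approx` in
`Pool/Agent/H49R2/PC/Defs.lean`):

* `gr m X`: the bipartite graph with two parts of `m` vertices and the set `X` of edges; `numIS` is the
  number `i(G)` of independent sets;
* `pr q P`: the probability that the set `X` of edges has the property `P`, if every pair `e` is in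
  `X` with probability `q e`, independently (`wt q X` is the probability of `X`);
* `LogExpander X`: every set of `a ≤ m / 64` vertices of one part has at least `2 a log₂ (2 m + 2)` or
  at least `m / 2` neighbours (`nbL`, `nbR`), and any two sets of more than `m / 64` vertices in different
  parts are joined by an edge.  There is no condition on the largest degree.

There is one deterministic algorithm, polynomial in the length of the graph and in `N = 1 / ε` (the length of the
string `w`), such that

1. it approximates `i(G)` within the relative error `1 / N` for all `LogExpander`s with `m ≥ 2000` and all `N`;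
2. for every `k` there are `C`, `m₀` such that for `m ≥ m₀` and ALL edge probabilities `q e` between
   `C log m / m` and `1` the random graph `X` has with probability at least `1 - m ^ (-k)` the
   property that the algorithm approximates `i(Y)` within `1 / N`, for all `N` and ALL `Y ⊇ X`.

For instance, let `H` be any bipartite graph (chosen by an adversary), add every other pair as an
edge with probability `C log m / m` (`q e = 1` on `H`), and then let the adversary, who now knows the
random edges, add any further edges: the algorithm works with high probability.

Idea.  The independent sets `(A, B)` with `|A| ≤ t` or `|B| ≤ t`, where `(2 m + 2) ^ t` is a little larger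
than `N`, are counted exactly; the mean number of the others is small in comparison with
`2 ^ m / N`.  If `2 ^ m` is bounded by a power of `N`, all independent sets are counted.
-/

set_option autoImplicit false

namespace Pool.Agent.Results.MP_a7c826_lc.SmoothedAnalysis

open Pool.Agent.NPC Pool.Agent.H49R2.PC Pool.Agent.J4H63.DB Pool.Agent.J4H23.SB

theorem result :
    ∃ (F : BGr × List Bool → ℕ) (A : List Bool → List Bool), PolyTime A ∧
      (∀ s, A (bits s) = bits (F s)) ∧
      (∀ (m : ℕ) (X : Finset (Fin m × Fin m)), 2000 ≤ m → LogExpander X →
        ∀ w : List Bool, w ≠ [] → Approx w.length (F (gr m X, w)) (numIS (gr m X))) ∧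
      ∀ k : ℕ, ∃ C m₀ : ℕ, ∀ m ≥ m₀, ∀ q : Fin m × Fin m → ℝ,
        (∀ e, C * Real.log m / m ≤ q e ∧ q e ≤ 1) →
        1 - 1 / (m : ℝ) ^ k ≤ pr q (fun X => ∀ Y : Finset (Fin m × Fin m), X ⊆ Y →
          ∀ w : List Bool, w ≠ [] → Approx w.length (F (gr m Y, w)) (numIS (gr m Y))) :=
  final

end Pool.Agent.Results.MP_a7c826_lc.SmoothedAnalysis
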